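import Mathlib
import Pool.Agent.H509R3.Yao.AlgRel

set_option autoImplicit false

/-!
Finite `p`-kernels and algebraic power series over the field with `p` elements.
-/

namespace Pool.Agent.W5h34.ET

open PowerSeries Finset
open Pool.Agent.H509R3.Yao (cart coeff_cart rt rt_pow kernel_finite coeff_pow_q)

/-- the `p`-kernel of a sequence -/
def ker {α : Type} (p : ℕ) (u : ℕ → α) : Set (ℕ → α) :=
  {v | ∃ k r : ℕ, r < p ^ k ∧ v = fun n => u (p ^ k * n + r)}

theorem self_mem_ker {α : Type} (p : ℕ) (u : ℕ → α) : u ∈ ker p u := ⟨0, 0, by norm_num, by simp⟩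

theorem sec_mem_ker {α : Type} {p : ℕ} {u v : ℕ → α} (hv : v ∈ ker p u) (b : ℕ) (hb : b < p) :
    (fun n => v (p * n + b)) ∈ ker p u := by
  obtain ⟨k, r, hr, rfl⟩ := hv
  refine ⟨k + 1, p ^ k * b + r, ?_, ?_⟩
  · have h1 : p ^ k * (b + 1) ≤ p ^ k * p := Nat.mul_le_mul_left _ (by omega)
    rw [pow_succ]
    nlinarith
  · funext n
    change u (p ^ k * (p * n + b) + r) = u (p ^ (k + 1) * n + (p ^ k * b + r))
    congr 1
    ring

/-- the image of the kernel -/
theorem ker_comp {α β : Type} (p : ℕ) (u : ℕ → α) (f : α → β) (h : (ker p u).Finite) :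
    (ker p fun n => f (u n)).Finite := by
  refine (h.image fun v n => f (v n)).subset ?_
  rintro _ ⟨k, r, hr, rfl⟩
  exact ⟨fun n => u (p ^ k * n + r), ⟨k, r, hr, rfl⟩, rfl⟩

variable {p : ℕ} [Fact p.Prime]

theorem mk_split (v : ℕ → ZMod p) : (PowerSeries.mk v : (ZMod p)⟦X⟧) =
    ∑ j ∈ range p, X ^ j * (PowerSeries.mk fun n => v (p * n + j)) ^ p := by
  have hp : 0 < p := (Fact.out : p.Prime).pos
  ext n
  rw [coeff_mk, map_sum]
  have key : ∀ j ∈ range p, coeff n ((X : (ZMod p)⟦X⟧) ^ j * (PowerSeries.mk fun n => v (p * n + j)) ^ p) =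
      if j = n % p then v n else 0 := by
    intro j hj
    rw [mem_range] at hj
    rw [PowerSeries.coeff_X_pow_mul']
    have h1 := coeff_pow_q p 1 (PowerSeries.mk fun n => v (p * n + j)) (n - j)
    rw [pow_one] at h1
    split_ifs with h2 h3 h3
    · rw [h1, if_pos (by rw [h3]; exact (Nat.modEq_iff_dvd' (Nat.mod_le n p)).1 (Nat.mod_modEq n p)), coeff_mk,
        ZMod.pow_card]
      congr 1
      rw [Nat.mul_div_cancel' (by rw [h3]; exact (Nat.modEq_iff_dvd' (Nat.mod_le n p)).1 (Nat.mod_modEq n p))]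
      omega
    · rw [h1, if_neg]
      intro hd
      apply h3
      have h4 : j ≡ n [MOD p] := (Nat.modEq_iff_dvd' h2).2 hd
      have h5 : j % p = n % p := h4
      rwa [Nat.mod_eq_of_lt hj] at h5
    · exact absurd (Nat.mod_le n p) (by rw [← h3]; exact h2)
    · rfl
  rw [sum_congr rfl key, sum_ite_eq' (range p) (n % p), if_pos (mem_range.2 (Nat.mod_lt _ hp))]

theorem frob_sum (s : Finset ℕ) (f : ℕ → (ZMod p)⟦X⟧) (k : ℕ) :
    (∑ j ∈ s, f j) ^ p ^ k = ∑ j ∈ s, f j ^ p ^ k := by
  have : CharP (ZMod p)⟦X⟧ p := by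
    have h : Function.Injective (algebraMap (ZMod p) (ZMod p)⟦X⟧) := by
      rw [PowerSeries.algebraMap_eq]
      exact PowerSeries.C_injective
    exact charP_of_injective_algebraMap h p
  exact sum_pow_char_pow p k s f

theorem smul_eq (P : Polynomial (ZMod p)) (s : (ZMod p)⟦X⟧) : P • s = (P : (ZMod p)⟦X⟧) * s := by
  rw [Algebra.smul_def]
  rfl

/-- sequences with finite kernel are algebraic -/
theorem alg_of_ker {u : ℕ → ZMod p} (hu : (ker p u).Finite) :
    IsAlgebraic (Polynomial (ZMod p)) (PowerSeries.mk u : (ZMod p)⟦X⟧) := by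
  classical
  have hp : 2 ≤ p := (Fact.out : p.Prime).two_le
  set K : Finset (ℕ → ZMod p) := hu.toFinset with hK
  have hKm : ∀ v, v ∈ K ↔ v ∈ ker p u := fun v => hu.mem_toFinset
  set N := K.card with hN
  set w : ℕ → Finset (ZMod p)⟦X⟧ := fun j => K.image fun v => (PowerSeries.mk v : (ZMod p)⟦X⟧) ^ p ^ j with hw
  have hstep : ∀ (i : ℕ) (v : ℕ → ZMod p), (PowerSeries.mk v : (ZMod p)⟦X⟧) ^ p ^ i =
      ∑ j ∈ range p, (Polynomial.X ^ (j * p ^ i) : Polynomial (ZMod p)) •
        (PowerSeries.mk fun n => v (p * n + j)) ^ p ^ (i + 1) := by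
    intro i v
    conv_lhs => rw [mk_split v]
    rw [frob_sum]
    refine sum_congr rfl fun j _ => ?_
    rw [mul_pow, ← pow_mul, ← pow_mul, smul_eq, Polynomial.coe_pow, Polynomial.coe_X, ← pow_succ']
  have claim : ∀ k i : ℕ, ∀ v ∈ K, (PowerSeries.mk v : (ZMod p)⟦X⟧) ^ p ^ i ∈
      Submodule.span (Polynomial (ZMod p)) ((w (i + k) : Finset (ZMod p)⟦X⟧) : Set (ZMod p)⟦X⟧) := by
    intro k
    induction k with
    | zero =>
      intro i v hv
      apply Submodule.subset_span
      rw [add_zero, hw]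
      simp only [Finset.coe_image]
      exact ⟨v, hv, rfl⟩
    | succ k ih =>
      intro i v hv
      rw [hstep, show i + (k + 1) = (i + 1) + k by ring]
      refine Submodule.sum_mem _ fun j hj => Submodule.smul_mem _ _ (ih (i + 1) _ ?_)
      exact (hKm _).2 (sec_mem_ker ((hKm v).1 hv) j (mem_range.1 hj))
  have huK : u ∈ K := (hKm u).2 (self_mem_ker p u)
  have hdep : ¬ LinearIndependent (Polynomial (ZMod p))
      (fun i : Fin (N + 1) => (PowerSeries.mk u : (ZMod p)⟦X⟧) ^ p ^ (i : ℕ)) := by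
    intro hli
    have h1 := linearIndependent_le_span' _ hli ((w N : Finset (ZMod p)⟦X⟧) : Set (ZMod p)⟦X⟧) (by
      rintro _ ⟨i, rfl⟩
      have h2 := claim (N - i) i u huK
      rwa [Nat.add_sub_cancel' (by have := i.2; omega)] at h2)
    rw [Cardinal.mk_fin] at h1
    have h2 : N + 1 ≤ Fintype.card ((w N : Finset (ZMod p)⟦X⟧) : Set (ZMod p)⟦X⟧) := by exact_mod_cast h1
    have h3 : Fintype.card ((w N : Finset (ZMod p)⟦X⟧) : Set (ZMod p)⟦X⟧) ≤ N := by
      simp only [Finset.coe_sort_coe, Fintype.card_coe]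
      exact Finset.card_image_le
    omega
  obtain ⟨g, hg, i0, hi0⟩ := Fintype.not_linearIndependent_iff.1 hdep
  refine ⟨∑ i : Fin (N + 1), Polynomial.C (g i) * Polynomial.X ^ p ^ (i : ℕ), ?_, ?_⟩
  · intro h0
    have h1 := congrArg (fun q : Polynomial (Polynomial (ZMod p)) => q.coeff (p ^ (i0 : ℕ))) h0
    simp only [Polynomial.finsetSum_coeff, Polynomial.coeff_C_mul, Polynomial.coeff_X_pow,
      Polynomial.coeff_zero] at h1
    rw [Finset.sum_eq_single i0] at h1
    · rw [if_pos rfl, mul_one] at h1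
      exact hi0 h1
    · intro i _ hne
      rw [if_neg, mul_zero]
      intro h2
      exact hne (Fin.ext (Nat.pow_right_injective hp h2).symm)
    · intro h2
      exact absurd (Finset.mem_univ _) h2
  · rw [map_sum, ← hg]
    refine Finset.sum_congr rfl fun i _ => ?_
    rw [map_mul, map_pow, Polynomial.aeval_C, Polynomial.aeval_X, ← Algebra.smul_def]

theorem rt_id (x : ZMod p) : rt p 1 x = x := by
  have h := rt_pow p 1 x
  rwa [pow_one, ZMod.pow_card] at h

/-- algebraic sequences have a finite kernel -/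
theorem ker_of_alg {u : ℕ → ZMod p}
    (h : IsAlgebraic (Polynomial (ZMod p)) (PowerSeries.mk u : (ZMod p)⟦X⟧)) : (ker p u).Finite := by
  obtain ⟨S, hS, h0, h1⟩ := kernel_finite p 1 (by norm_num) (PowerSeries.mk u) h
  have hcart : ∀ (v : ℕ → ZMod p) (b : ℕ), cart p 1 b (PowerSeries.mk v) = PowerSeries.mk fun n => v (p * n + b) := by
    intro v b
    ext n
    rw [coeff_cart, coeff_mk, coeff_mk, rt_id, pow_one]
  have claim : ∀ k r : ℕ, r < p ^ k → (PowerSeries.mk fun n => u (p ^ k * n + r)) ∈ S := by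
    intro k
    induction k with
    | zero =>
      intro r hr
      have hr0 : r = 0 := by rw [pow_zero] at hr; omega
      subst hr0
      simpa using h0
    | succ k ih =>
      intro r hr
      have hpk : 0 < p ^ k := pow_pos (Fact.out : p.Prime).pos _
      have h2 := ih (r % p ^ k) (Nat.mod_lt _ hpk)
      have hb : r / p ^ k < p := by
        rw [Nat.div_lt_iff_lt_mul hpk]
        rw [pow_succ] at hr
        linarith [mul_comm (p ^ k) p]
      have h3 := h1 _ h2 (r / p ^ k) (by rw [pow_one]; exact hb)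
      rw [hcart] at h3
      convert h3 using 2
      funext n
      congr 1
      have := Nat.div_add_mod r (p ^ k)
      rw [pow_succ]
      nlinarith
  refine Set.Finite.subset (hS.image fun s n => coeff n s) ?_
  rintro _ ⟨k, r, hr, rfl⟩
  exact ⟨_, claim k r hr, by funext n; exact coeff_mk n _⟩

end Pool.Agent.W5h34.ET
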