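import Mathlib
import Pool.Agent.W5h34.ET.Chr
import Pool.Agent.Results.MP_12a1af_nt.AffineSystems

set_option autoImplicit false

/-!
Generating functions of representation functions modulo a prime.
-/

namespace Pool.Agent.W5h34.ET

open PowerSeries Finset
open Pool.Agent.Results.MP_12a1af_nt.AffineSystems (rep IsSolution)

/-- the number of `h`-tuples of elements of `A` with sum `n` -/
noncomputable def repH (A : Set ℕ) (h n : ℕ) : ℕ :=
  {f : Fin h → ℕ | (∀ i, f i ∈ A) ∧ ∑ i, f i = n}.ncard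

open Classical in
/-- the indicator sequence -/
noncomputable def ind (p : ℕ) (A : Set ℕ) (n : ℕ) : ZMod p := if n ∈ A then 1 else 0

/-- the generating series -/
noncomputable def gen (p : ℕ) (A : Set ℕ) : (ZMod p)⟦X⟧ := PowerSeries.mk (ind p A)

theorem coeff_gen_pow (p : ℕ) (A : Set ℕ) (h n : ℕ) : coeff n (gen p A ^ h) = (repH A h n : ZMod p) := by
  classical
  have e1 : gen p A ^ h = ∏ _i : Fin h, gen p A := by
    rw [prod_const, card_univ, Fintype.card_fin]
  rw [e1, PowerSeries.coeff_prod]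
  have e2 : ∀ l ∈ finsuppAntidiag (univ : Finset (Fin h)) n, ∏ i, coeff (l i) (gen p A) =
      if ∀ i, l i ∈ A then (1 : ZMod p) else 0 := by
    intro l _
    unfold gen
    simp only [coeff_mk]
    unfold ind
    by_cases hl : ∀ i, l i ∈ A
    · rw [if_pos hl]
      exact prod_eq_one fun i _ => if_pos (hl i)
    · rw [if_neg hl]
      push Not at hl
      obtain ⟨i, hi⟩ := hl
      exact prod_eq_zero (mem_univ i) (if_neg hi)
  rw [sum_congr rfl e2, ← sum_filter, sum_const, nsmul_eq_mul, mul_one]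
  congr 1
  unfold repH
  rw [← Set.ncard_coe_finset]
  symm
  apply Set.ncard_congr (fun (f : Fin h → ℕ) _ => Finsupp.equivFunOnFinite.symm f)
  · intro f hf
    obtain ⟨h1, h2⟩ := hf
    rw [mem_coe, mem_filter, mem_finsuppAntidiag]
    refine ⟨⟨?_, subset_univ _⟩, ?_⟩
    · simpa using h2
    · intro i
      simpa using h1 i
  · intro f g _ _ hfg
    exact Finsupp.equivFunOnFinite.symm.injective hfg
  · intro l hl
    rw [mem_coe, mem_filter, mem_finsuppAntidiag] at hl
    refine ⟨Finsupp.equivFunOnFinite l, ⟨?_, ?_⟩, by simp⟩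
    · intro i
      simpa using hl.2 i
    · simpa using hl.1.1

/-- the combination `∑ c i j r_{A,i} (n - j)`, `i ≤ h`, `j ≤ D` -/
noncomputable def comb (A : Set ℕ) (c : ℕ → ℕ → ℤ) (D h n : ℕ) : ℤ :=
  ∑ i ∈ range (h + 1), ∑ j ∈ range (D + 1), if j ≤ n then c i j * repH A i (n - j) else 0

/-- the coefficients as polynomials modulo `p` -/
noncomputable def cp (p : ℕ) (c : ℕ → ℕ → ℤ) (D i : ℕ) : Polynomial (ZMod p) :=
  ∑ j ∈ range (D + 1), Polynomial.monomial j ((c i j : ℤ) : ZMod p)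

theorem coeff_cp (p : ℕ) (c : ℕ → ℕ → ℤ) (D i j : ℕ) (hj : j ≤ D) :
    (cp p c D i).coeff j = ((c i j : ℤ) : ZMod p) := by
  unfold cp
  rw [Polynomial.finsetSum_coeff]
  simp only [Polynomial.coeff_monomial]
  rw [sum_ite_eq' (range (D + 1)) j, if_pos (mem_range.2 (by omega))]

theorem coe_cp (p : ℕ) (c : ℕ → ℕ → ℤ) (D i : ℕ) : ((cp p c D i : Polynomial (ZMod p)) : (ZMod p)⟦X⟧) =
    ∑ j ∈ range (D + 1), PowerSeries.C ((c i j : ℤ) : ZMod p) * X ^ j := by
  unfold cp
  rw [← Polynomial.coeToPowerSeries.ringHom_apply, map_sum]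
  refine sum_congr rfl fun j _ => ?_
  rw [Polynomial.coeToPowerSeries.ringHom_apply, Polynomial.coe_monomial, PowerSeries.monomial_eq_mk]
  rw [← PowerSeries.monomial_eq_mk]
  ext n
  rw [PowerSeries.coeff_monomial, PowerSeries.coeff_C_mul, PowerSeries.coeff_X_pow]
  split_ifs <;> simp

theorem mk_comb (p : ℕ) [Fact p.Prime] (A : Set ℕ) (c : ℕ → ℕ → ℤ) (D h : ℕ) :
    (PowerSeries.mk fun n => ((comb A c D h n : ℤ) : ZMod p)) =
      ∑ i ∈ range (h + 1), ((cp p c D i : Polynomial (ZMod p)) : (ZMod p)⟦X⟧) * gen p A ^ i := by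
  ext n
  rw [coeff_mk, map_sum]
  unfold comb
  rw [Int.cast_sum]
  refine sum_congr rfl fun i _ => ?_
  rw [coe_cp, sum_mul, map_sum, Int.cast_sum]
  refine sum_congr rfl fun j _ => ?_
  rw [mul_assoc, PowerSeries.coeff_C_mul, PowerSeries.coeff_X_pow_mul']
  split_ifs with hj
  · rw [coeff_gen_pow]
    push_cast
    ring
  · simp

/-- if a nontrivial combination is automatic modulo `p`, then the set is automatic -/
theorem ker_ind {p : ℕ} [Fact p.Prime] (A : Set ℕ) (c : ℕ → ℕ → ℤ) (D h : ℕ) (hh : 1 ≤ h)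
    (hc : ∃ j ≤ D, ¬ (p : ℤ) ∣ c h j)
    (hk : (ker p fun n => ((comb A c D h n : ℤ) : ZMod p)).Finite) : (ker p (ind p A)).Finite := by
  classical
  have h1 := alg_of_ker hk
  rw [mk_comb] at h1
  obtain ⟨P, hP0, hP⟩ := h1
  set Q : Polynomial (Polynomial (ZMod p)) := ∑ i ∈ range (h + 1), Polynomial.monomial i (cp p c D i) with hQ
  have hQc : ∀ i, i ≤ h → Q.coeff i = cp p c D i := by
    intro i hi
    rw [hQ, Polynomial.finsetSum_coeff]
    simp only [Polynomial.coeff_monomial]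
    rw [sum_ite_eq' (range (h + 1)) i, if_pos (mem_range.2 (by omega))]
  have hQh : Q.coeff h ≠ 0 := by
    rw [hQc h le_rfl]
    obtain ⟨j, hj, hcj⟩ := hc
    intro h0
    have := coeff_cp p c D h j hj
    rw [h0, Polynomial.coeff_zero] at this
    exact hcj ((ZMod.intCast_zmod_eq_zero_iff_dvd _ _).1 this.symm)
  have hQd : 0 < Q.natDegree := lt_of_lt_of_le (by omega) (Polynomial.le_natDegree_of_ne_zero hQh)
  have hev : Polynomial.aeval (gen p A) Q =
      ∑ i ∈ range (h + 1), ((cp p c D i : Polynomial (ZMod p)) : (ZMod p)⟦X⟧) * gen p A ^ i := by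
    rw [hQ, map_sum]
    refine sum_congr rfl fun i _ => ?_
    rw [Polynomial.aeval_monomial]
    rfl
  apply ker_of_alg
  refine ⟨P.comp Q, ?_, ?_⟩
  · intro h0
    rcases Polynomial.comp_eq_zero_iff.1 h0 with h2 | ⟨-, h2⟩
    · exact hP0 h2
    · rw [h2, Polynomial.natDegree_C] at hQd
      exact lt_irrefl _ hQd
  · rw [Polynomial.aeval_comp]
    change Polynomial.aeval (Polynomial.aeval (gen p A) Q) P = 0
    rw [hev]
    exact hP

end Pool.Agent.W5h34.ET
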