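import Mathlib
import Pool.Agent.W5h34.ET.Gen

set_option autoImplicit false

/-!
Automatic sets: the dichotomy, and growth conditions.
-/

namespace Pool.Agent.W5h34.ET

open PowerSeries Finset Filter Topology
open Pool.Agent.Results.MP_12a1af_nt.AffineSystems (rep IsSolution)

/-- at most polylogarithmic counting function -/
def Polylog (A : Set ℕ) : Prop :=
  ∃ (C : ℝ) (k : ℕ), ∀ N : ℕ, ((A ∩ Set.Iic N).ncard : ℝ) ≤ C * Real.log (N + 2) ^ k

/-- large values of the representation function -/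
def LargeRep (A : Set ℕ) : Prop :=
  ∃ c : ℝ, 0 < c ∧ ∀ N₀ : ℕ, ∃ n : ℕ, N₀ ≤ n ∧ (n : ℝ) ^ c ≤ (rep A n : ℝ)

theorem dich {p : ℕ} [Fact p.Prime] (A : Set ℕ) (hk : (ker p (ind p A)).Finite) :
    Polylog A ∨ ∀ B : Set ℕ, A ⊆ B → LargeRep B := by
  classical
  have hp : 2 ≤ p := (Fact.out : p.Prime).two_le
  let ι : Type := {v : ℕ → ZMod p // v ∈ hk.toFinset}
  let sec : ι → ℕ → ι := fun i j => if hj : j < p then
    ⟨fun n => i.1 (p * n + j), (hk.mem_toFinset).2 (sec_mem_ker ((hk.mem_toFinset).1 i.2) j hj)⟩ else i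
  let E : Finset (ι × ι × ℕ × ℤ) :=
    ((univ : Finset ι) ×ˢ range p).image fun x => (x.1, sec x.1 x.2, p, (x.2 : ℤ))
  let A' : ι → Set ℕ := fun i => {n | i.1 n = 1}
  have hsec : ∀ (i : ι) (j : ℕ), j < p → ∀ n, (sec i j).1 n = i.1 (p * n + j) := by
    intro i j hj n
    simp only [sec, dif_pos hj]
  have hE : ∀ i j q d, (i, j, q, d) ∈ E → 2 ≤ q := by
    intro i j q d h
    obtain ⟨x, -, hx⟩ := mem_image.1 h
    have : q = p := (congrArg (fun y : ι × ι × ℕ × ℤ => y.2.2.1) hx).symm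
    omega
  have hA : IsSolution E (fun _ => ∅) A' := by
    refine ⟨fun i x hx => absurd hx (notMem_empty x), ?_, ?_⟩
    · intro i j q d h y hy
      obtain ⟨⟨i', j'⟩, hx1, hx⟩ := mem_image.1 h
      rw [mem_product, mem_range] at hx1
      have h1 : i' = i := congrArg (fun y : ι × ι × ℕ × ℤ => y.1) hx
      have h2 : sec i' j' = j := congrArg (fun y : ι × ι × ℕ × ℤ => y.2.1) hx
      have h3 : p = q := congrArg (fun y : ι × ι × ℕ × ℤ => y.2.2.1) hx
      have h4 : (j' : ℤ) = d := congrArg (fun y : ι × ι × ℕ × ℤ => y.2.2.2) hx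
      refine ⟨p * y + j', ?_, by rw [← h3, ← h4]; push_cast; ring⟩
      change i.1 (p * y + j') = 1
      have h5 : j.1 y = 1 := hy
      rw [← h2, hsec i' j' hx1.2, h1] at h5
      exact h5
    · intro i x hx
      right
      have hxp : x % p < p := Nat.mod_lt _ (by omega)
      refine ⟨sec i (x % p), p, ((x % p : ℕ) : ℤ), mem_image.2 ⟨(i, x % p), ?_, rfl⟩, x / p, ?_, ?_⟩
      · rw [mem_product, mem_range]
        exact ⟨mem_univ _, hxp⟩
      · change (sec i (x % p)).1 (x / p) = 1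
        rw [hsec i _ hxp, Nat.div_add_mod]
        exact hx
      · have := Nat.div_add_mod x p
        exact_mod_cast this.symm
  have h0 := (Pool.Agent.Results.MP_12a1af_nt.AffineSystems.result E (fun _ => ∅) A' hE hA).1
    ⟨ind p A, (hk.mem_toFinset).2 (self_mem_ker p _)⟩
  have hAA : A' ⟨ind p A, (hk.mem_toFinset).2 (self_mem_ker p _)⟩ = A := by
    ext n
    change ind p A n = 1 ↔ n ∈ A
    unfold ind
    split_ifs with h
    · simp [h]
    · simp [h]
  rw [hAA] at h0
  exact h0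

theorem not_polylog (A : Set ℕ) (k C₂ : ℕ)
    (h : ∀ N₀ : ℕ, ∃ N : ℕ, N₀ ≤ N ∧ N ≤ C₂ * (A ∩ Set.Iic N).ncard ^ k) : ¬ Polylog A := by
  rintro ⟨C, j, hC⟩
  have h1 : (fun x : ℝ => Real.log x ^ (j * k)) =o[atTop] id := Real.isLittleO_pow_log_id_atTop
  set M : ℝ := C₂ * |C| ^ k + 1 with hM
  have hM0 : 0 < M := by positivity
  have h2 := h1.def (show 0 < 1 / (2 * M) by positivity)
  obtain ⟨x₀, hx₀⟩ := eventually_atTop.1 h2
  obtain ⟨N, hN, hN2⟩ := h (max 3 ⌈x₀⌉₊)
  have hN3 : 3 ≤ N := le_trans (le_max_left _ _) hN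
  have hNx : x₀ ≤ (N : ℝ) + 2 := by
    have h3 : ⌈x₀⌉₊ ≤ N := le_trans (le_max_right _ _) hN
    have h4 : x₀ ≤ (N : ℝ) := (Nat.le_ceil x₀).trans (by exact_mod_cast h3)
    linarith
  have h5 := hx₀ ((N : ℝ) + 2) hNx
  have hlog : 0 ≤ Real.log ((N : ℝ) + 2) := Real.log_nonneg (by
    have : (0 : ℝ) ≤ N := Nat.cast_nonneg _
    linarith)
  rw [Real.norm_of_nonneg (pow_nonneg hlog _), id, Real.norm_of_nonneg (by positivity)] at h5
  have h6 : ((A ∩ Set.Iic N).ncard : ℝ) ≤ |C| * Real.log (N + 2) ^ j :=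
    (hC N).trans (mul_le_mul_of_nonneg_right (le_abs_self C) (pow_nonneg hlog _))
  have h7 : (N : ℝ) ≤ C₂ * (|C| * Real.log (N + 2) ^ j) ^ k := by
    calc (N : ℝ) ≤ C₂ * ((A ∩ Set.Iic N).ncard : ℝ) ^ k := by exact_mod_cast hN2
      _ ≤ _ := mul_le_mul_of_nonneg_left (pow_le_pow_left₀ (Nat.cast_nonneg _) h6 k) (Nat.cast_nonneg _)
  have h8 : (C₂ : ℝ) * (|C| * Real.log (N + 2) ^ j) ^ k ≤ M * Real.log (N + 2) ^ (j * k) := by
    rw [mul_pow, ← pow_mul, ← mul_assoc]
    exact mul_le_mul_of_nonneg_right (by rw [hM]; linarith) (pow_nonneg hlog _)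
  have h9 : M * Real.log (N + 2) ^ (j * k) ≤ ((N : ℝ) + 2) / 2 := by
    calc M * Real.log (N + 2) ^ (j * k) ≤ M * (1 / (2 * M) * ((N : ℝ) + 2)) :=
          mul_le_mul_of_nonneg_left h5 hM0.le
      _ = _ := by field_simp
  have h10 : (3 : ℝ) ≤ N := by exact_mod_cast hN3
  linarith

/-- bases of order `k` -/
theorem basis_growth (A : Set ℕ) (k n₀ : ℕ) (h : ∀ n, n₀ ≤ n → 1 ≤ repH A k n) :
    ∀ N₀ : ℕ, ∃ N : ℕ, N₀ ≤ N ∧ N ≤ 2 * (A ∩ Set.Iic N).ncard ^ k := by
  classical
  intro N₀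
  refine ⟨max N₀ (2 * n₀), le_max_left _ _, ?_⟩
  set N := max N₀ (2 * n₀) with hN
  have hfin : (A ∩ Set.Iic N).Finite := (Set.finite_Iic N).inter_of_right A
  set T : Finset ℕ := hfin.toFinset with hT
  have hcard : (A ∩ Set.Iic N).ncard = T.card := Set.ncard_eq_toFinset_card _ hfin
  have hsub : Icc n₀ N ⊆ (Fintype.piFinset fun _ : Fin k => T).image fun f => ∑ i, f i := by
    intro n hn
    rw [mem_Icc] at hn
    have h1 := h n hn.1
    unfold repH at h1
    obtain ⟨f, hf1, hf2⟩ := Set.nonempty_of_ncard_ne_zero (by omega :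
      {f : Fin k → ℕ | (∀ i, f i ∈ A) ∧ ∑ i, f i = n}.ncard ≠ 0)
    refine mem_image.2 ⟨f, Fintype.mem_piFinset.2 fun i => ?_, hf2⟩
    rw [hT, hfin.mem_toFinset]
    refine ⟨hf1 i, ?_⟩
    have h2 : f i ≤ ∑ i, f i := single_le_sum (f := f) (fun _ _ => Nat.zero_le _) (mem_univ i)
    rw [Set.mem_Iic]
    omega
  have h3 := (card_le_card hsub).trans card_image_le
  rw [Nat.card_Icc, Fintype.card_piFinset, prod_const, card_univ, Fintype.card_fin] at h3
  rw [hcard]
  omega

/-- sets with `a_n ≤ C n ^ k` -/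
theorem nth_growth (A : Set ℕ) (hA : A.Infinite) (k C : ℕ)
    (h : ∀ n, 1 ≤ n → Nat.nth (· ∈ A) (n - 1) ≤ C * n ^ k) :
    ∀ N₀ : ℕ, ∃ N : ℕ, N₀ ≤ N ∧ N ≤ (C + 1) * (A ∩ Set.Iic N).ncard ^ (k + 1) := by
  classical
  intro N₀
  set n := N₀ + 1 with hn
  refine ⟨(C + 1) * n ^ (k + 1), ?_, ?_⟩
  · have h1 : n ≤ n ^ (k + 1) := Nat.le_self_pow (by omega) n
    nlinarith
  · apply Nat.mul_le_mul_left
    apply Nat.pow_le_pow_left
    have hfin : (A ∩ Set.Iic ((C + 1) * n ^ (k + 1))).Finite := (Set.finite_Iic _).inter_of_right A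
    have hinj : Function.Injective (Nat.nth (· ∈ A)) := Nat.nth_injective hA
    have h2 : (((range n).image (Nat.nth (· ∈ A)) : Finset ℕ) : Set ℕ).ncard = n := by
      rw [Set.ncard_coe_finset, card_image_of_injective _ hinj, card_range]
    refine le_trans h2.ge ?_
    apply Set.ncard_le_ncard _ hfin
    intro x hx
    rw [mem_coe, mem_image] at hx
    obtain ⟨i, hi, rfl⟩ := hx
    rw [mem_range] at hi
    refine ⟨Nat.nth_mem_of_infinite hA i, ?_⟩
    rw [Set.mem_Iic]
    have h3 := h (i + 1) (by omega)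
    rw [Nat.add_sub_cancel] at h3
    refine h3.trans ?_
    have h4 : (i + 1) ^ k ≤ n ^ (k + 1) :=
      (Nat.pow_le_pow_left (by omega) k).trans (Nat.pow_le_pow_right (by omega) (by omega))
    exact Nat.mul_le_mul (by omega) h4

/-- eventually periodic sequences are automatic -/
theorem ker_periodic {α : Type} [Finite α] (p : ℕ) (u : ℕ → α) (T n₀ : ℕ) (hT : 1 ≤ T)
    (h : ∀ n, n₀ ≤ n → u (n + T) = u n) : (ker p u).Finite := by
  classical
  -- every element of the kernel is periodic of period `T` from `n₀` on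
  have hstep : ∀ v ∈ ker p u, ∀ n, n₀ ≤ n → v (n + T) = v n := by
    rintro _ ⟨k, r, hr, rfl⟩ n hn
    have hper : ∀ j m, n₀ ≤ m → u (m + j * T) = u m := by
      intro j
      induction j with
      | zero => intro m _; simp
      | succ j ih =>
        intro m hm
        rw [show m + (j + 1) * T = (m + j * T) + T by ring, h _ (by omega), ih m hm]
    have hpk : 1 ≤ p ^ k := by omega
    have e : p ^ k * (n + T) + r = (p ^ k * n + r) + p ^ k * T := by ring
    change u (p ^ k * (n + T) + r) = u (p ^ k * n + r)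
    rw [e]
    exact hper _ _ (by nlinarith)
  refine Set.Finite.of_finite_image (f := fun v : ℕ → α => fun i : Fin (n₀ + T) => v i)
    (Set.toFinite _) ?_
  intro v hv w hw hvw
  funext n
  induction n using Nat.strong_induction_on with
  | _ n ih =>
    by_cases hn : n < n₀ + T
    · exact congrFun hvw ⟨n, hn⟩
    · have h1 := hstep v hv (n - T) (by omega)
      have h2 := hstep w hw (n - T) (by omega)
      rw [Nat.sub_add_cancel (by omega)] at h1 h2
      rw [h1, h2]
      exact ih _ (by omega)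

/-- combinations of automatic sets are automatic modulo `p` -/
theorem ker_comb {p : ℕ} [Fact p.Prime] (A : Set ℕ) (c : ℕ → ℕ → ℤ) (D h : ℕ)
    (hk : (ker p (ind p A)).Finite) : (ker p fun n => ((comb A c D h n : ℤ) : ZMod p)).Finite := by
  apply ker_of_alg
  rw [mk_comb]
  have h1 : IsAlgebraic (Polynomial (ZMod p)) (gen p A) := alg_of_ker hk
  have h2 : ∀ s : Finset ℕ, IsAlgebraic (Polynomial (ZMod p))
      (∑ i ∈ s, ((cp p c D i : Polynomial (ZMod p)) : (ZMod p)⟦X⟧) * gen p A ^ i) := by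
    classical
    intro s
    induction s using Finset.induction_on with
    | empty => rw [sum_empty]; exact isAlgebraic_zero
    | insert a s ha ih =>
      rw [sum_insert ha]
      refine IsAlgebraic.add (IsAlgebraic.mul ?_ (h1.pow a)) ih
      exact isAlgebraic_algebraMap (R := Polynomial (ZMod p)) (A := (ZMod p)⟦X⟧) (cp p c D a)
  exact h2 _

theorem ker_prop {p : ℕ} [Fact p.Prime] (A : Set ℕ) :
    (ker p (ind p A)).Finite ↔ (ker p fun n => n ∈ A).Finite := by
  classical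
  constructor
  · intro h
    have h1 := ker_comp p (ind p A) (fun x : ZMod p => x = 1) h
    have e : (fun n => ind p A n = 1) = fun n => n ∈ A := by
      funext n
      unfold ind
      split_ifs with hn
      · simp [hn]
      · simp [hn]
    rwa [e] at h1
  · intro h
    exact ker_comp p (fun n => n ∈ A) (fun q : Prop => if q then (1 : ZMod p) else 0) h

end Pool.Agent.W5h34.ET
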